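import Pool.Agent.IncLog.Path

set_option autoImplicit false

namespace Pool.Agent.IncLog

open Set

/-- the part of the zero set of block `m+1` right of the first sub-block -/
def R (m : ℕ) (α u : ℝ) : Set ℝ := {x | (K m : ℝ) < x ∧ x ≤ K (m+1) ∧ U (m+1) x - α * x = u}

lemma Z_succ_subset (m : ℕ) (α u : ℝ) : Z (m+1) α u ⊆ Z m α u ∪ R m α u := by
  intro x hx
  obtain ⟨h0, h1, h2⟩ := hx
  by_cases h : x ≤ K m
  · left; exact ⟨h0, h, by rw [← piece1 m x h]; exact h2⟩
  · right; push Not at h; exact ⟨h, h1, h2⟩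

lemma R_cases (m : ℕ) {α u x : ℝ} (hx : x ∈ R m α u) :
    (∃ y : ℝ, 0 < y ∧ y ≤ 2^m ∧ x = K m + y ∧
        K m * (2^m - α) + (2 * 2^m - α) * y + y^2 = u) ∨
      (∃ y : ℝ, 0 < y ∧ y ≤ 2^m ∧ x = K m + 2^m + y ∧
        K m * (2^m - α) + (2 * 2^m - α) * 2^m + (2^m)^2 + y * (y - α) = u) ∨
      (∃ y : ℝ, 0 < y ∧ y ≤ K m ∧ x = K m + 2 * 2^m + y ∧
        K m * (2^m - α) + 2 * 2^m * (2 * 2^m - α) + U m y + (2 * 2^m - α) * y = u) := by
  obtain ⟨h0, h1, h2⟩ := hx
  have hKp : (0:ℝ) < K m := by exact_mod_cast K_pos m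
  rcases cases_pt m (hKp.le.trans h0.le) h1 with h | ⟨y, hy0, hy1, rfl⟩ | ⟨y, hy0, hy1, rfl⟩ | ⟨y, hy0, hy1, rfl⟩
  · exfalso; linarith
  · left
    refine ⟨y, hy0, hy1, rfl, ?_⟩
    rw [← h2, piece2 m _ hy0.le hy1]; ring
  · right; left
    refine ⟨y, hy0, hy1, rfl, ?_⟩
    rw [← h2, piece3 m _ hy0.le hy1]; ring
  · right; right
    refine ⟨y, hy0, hy1, rfl, ?_⟩
    rw [← h2, piece4 m _ hy0.le]; ring

lemma R_lower (m : ℕ) {α u x : ℝ} (hα : α < 2 * 2^m) (hx : x ∈ R m α u) : K m * (2^m - α) < u := by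
  have hv : (0:ℝ) < 2^m := by positivity
  have hα' : 0 < 2 * 2^m - α := by linarith
  rcases R_cases m hx with ⟨y, hy0, hy1, -, h⟩ | ⟨y, hy0, hy1, -, h⟩ | ⟨y, hy0, hy1, -, h⟩
  · have : 0 < (2 * 2^m - α) * y := by positivity
    have : 0 < y^2 := by positivity
    linarith
  · have e : (2 * 2^m - α) * 2^m + (2^m)^2 + y * (y - α) = (2^m - y)^2 + (2 * 2^m - α) * (2^m + y) := by ring
    have : 0 < (2 * 2^m - α) * (2^m + y) := by positivity
    have : 0 ≤ ((2:ℝ)^m - y)^2 := by positivity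
    linarith
  · have := U_nonneg m y hy0.le
    have : 0 < (2 * 2^m - α) * y := by positivity
    have : 0 < 2 * 2^m * (2 * 2^m - α) := by positivity
    linarith

lemma E_sub (m : ℕ) (α : ℝ) : (K (m+1) : ℕ) * (2^(m+1) - α) = K m * (2^m - α) +
    (K m * (3 * 2^m - α) + 2 * 2^m * (2 * 2^m - α)) := by
  rw [K_succ_real]; ring

lemma R_upper (m : ℕ) {α u x : ℝ} (hα : α ≤ 2 * 2^m) (hx : x ∈ R m α u) :
    u ≤ (K (m+1) : ℕ) * (2^(m+1) - α) := by
  have hv : (0:ℝ) < 2^m := by positivity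
  have hKv : (2:ℝ)^m ≤ K m := by exact_mod_cast K_ge m
  have hKp : (0:ℝ) < K m := by exact_mod_cast K_pos m
  have hα' : 0 ≤ 2 * 2^m - α := by linarith
  rw [E_sub]
  have h3 : K m * 2^m ≤ K m * (3 * 2^m - α) := by
    apply mul_le_mul_of_nonneg_left _ hKp.le; linarith
  have h3' : (2^m)^2 ≤ (K m : ℝ) * 2^m := by nlinarith
  rcases R_cases m hx with ⟨y, hy0, hy1, -, h⟩ | ⟨y, hy0, hy1, -, h⟩ | ⟨y, hy0, hy1, -, h⟩
  · have a1 : (2 * 2^m - α) * y ≤ (2 * 2^m - α) * 2^m := mul_le_mul_of_nonneg_left hy1 hα'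
    have a2 : y^2 ≤ (2^m)^2 := by nlinarith
    have a3 : 0 ≤ (2 * 2^m - α) * 2^m := by positivity
    linarith
  · have a3 : 0 ≤ (2 * 2^m - α) * 2^m := by positivity
    rcases le_or_gt (2^m) α with hc | hc
    · have : y * (y - α) ≤ 0 := by
        apply mul_nonpos_of_nonneg_of_nonpos hy0.le; linarith
      linarith
    · have : y * (y - α) ≤ 2^m * (2^m - α) := by
        rcases le_or_gt α y with h' | h'
        · apply mul_le_mul hy1 (by linarith) (by linarith) hv.le
        · have : y * (y - α) ≤ 0 := by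
            apply mul_nonpos_of_nonneg_of_nonpos hy0.le; linarith
          have : 0 ≤ 2^m * (2^m - α) := by
            apply mul_nonneg hv.le; linarith
          linarith
      have : 0 ≤ K m * (3 * 2^m - α) := by
        apply mul_nonneg hKp.le; linarith
      nlinarith
  · have a1 := U_le_end m y hy0.le hy1
    have a2 : (2 * 2^m - α) * y ≤ (2 * 2^m - α) * K m := mul_le_mul_of_nonneg_left hy1 hα'
    nlinarith

lemma R_encard (m : ℕ) {α : ℝ} (u : ℝ) (hα : α ≤ 2 * 2^m) : (R m α u).encard ≤ 4 := by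
  have hv : (0:ℝ) < 2^m := by positivity
  have hα' : 0 ≤ 2 * 2^m - α := by linarith
  let R2 : Set ℝ := {x | ∃ y : ℝ, 0 < y ∧ y ≤ 2^m ∧ x = K m + y ∧
        K m * (2^m - α) + (2 * 2^m - α) * y + y^2 = u}
  let R3 : Set ℝ := {x | ∃ y : ℝ, 0 < y ∧ y ≤ 2^m ∧ x = K m + 2^m + y ∧
        K m * (2^m - α) + (2 * 2^m - α) * 2^m + (2^m)^2 + y * (y - α) = u}
  let R4 : Set ℝ := {x | ∃ y : ℝ, 0 < y ∧ y ≤ K m ∧ x = K m + 2 * 2^m + y ∧
        K m * (2^m - α) + 2 * 2^m * (2 * 2^m - α) + U m y + (2 * 2^m - α) * y = u}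
  have hsub : R m α u ⊆ R2 ∪ R3 ∪ R4 := by
    intro x hx
    rcases R_cases m hx with h | h | h
    · exact Or.inl (Or.inl h)
    · exact Or.inl (Or.inr h)
    · exact Or.inr h
  have h2 : R2.encard ≤ 1 := by
    rw [encard_le_one_iff]
    rintro a b ⟨y, hy0, hy1, rfl, hy⟩ ⟨z, hz0, hz1, rfl, hz⟩
    have e : (y - z) * ((2 * 2^m - α) + (y + z)) = 0 := by linear_combination hy - hz
    have : 0 < (2 * 2^m - α) + (y + z) := by linarith
    rcases mul_eq_zero.1 e with h | h
    · have : y = z := by linarith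
      rw [this]
    · exfalso; linarith
  have h3 : R3.encard ≤ 2 := by
    apply quad_encard (2 * (K m + 2^m) + α)
      (u - (K m * (2^m - α) + (2 * 2^m - α) * 2^m + (2^m)^2) - (K m + 2^m) * (K m + 2^m + α))
    rintro x ⟨y, hy0, hy1, rfl, hy⟩
    linear_combination hy
  have h4 : R4.encard ≤ 1 := by
    rw [encard_le_one_iff]
    rintro a b ⟨y, hy0, hy1, rfl, hy⟩ ⟨z, hz0, hz1, rfl, hz⟩
    rcases lt_trichotomy y z with h | h | h
    · exfalso
      have := U_strictMonoOn m ⟨hy0.le, hy1⟩ ⟨hz0.le, hz1⟩ h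
      have : (2 * 2^m - α) * y ≤ (2 * 2^m - α) * z := mul_le_mul_of_nonneg_left h.le hα'
      linarith
    · rw [h]
    · exfalso
      have := U_strictMonoOn m ⟨hz0.le, hz1⟩ ⟨hy0.le, hy1⟩ h
      have : (2 * 2^m - α) * z ≤ (2 * 2^m - α) * y := mul_le_mul_of_nonneg_left h.le hα'
      linarith
  calc (R m α u).encard ≤ (R2 ∪ R3 ∪ R4).encard := encard_le_encard hsub
    _ ≤ (R2 ∪ R3).encard + R4.encard := encard_union_le _ _
    _ ≤ (R2.encard + R3.encard) + R4.encard := by gcongr; exact encard_union_le _ _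
    _ ≤ (1 + 2) + 1 := by gcongr
    _ = 4 := by norm_num

/-- `U m x - 2^(m+1) x` is strictly decreasing -/
lemma Z_top (m : ℕ) (u : ℝ) : (Z m (2 * 2^m) u).encard ≤ 1 ∧ ((Z m (2 * 2^m) u).Nonempty → u ≤ 0) := by
  have hKp : (0:ℝ) < K m := by exact_mod_cast K_pos m
  have key : ∀ x : ℝ, 0 ≤ x → x ≤ K m → U m x - 2 * 2^m * x = U m (K m - x) - 2^m * K m := by
    intro x h0 h1
    rw [U_symm m x h0 h1]; ring
  constructor
  · rw [encard_le_one_iff]
    rintro a b ⟨ha0, ha1, ha⟩ ⟨hb0, hb1, hb⟩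
    rw [key a ha0 ha1] at ha
    rw [key b hb0 hb1] at hb
    have : U m (K m - a) = U m (K m - b) := by linarith
    have := (U_strictMonoOn m).injOn (x₁ := (K m : ℝ) - a) (x₂ := (K m : ℝ) - b) ⟨by linarith, by linarith⟩ ⟨by linarith, by linarith⟩ this
    linarith
  · rintro ⟨x, h0, h1, h2⟩
    rw [key x h0 h1] at h2
    have := U_le_end m (K m - x) (by linarith) (by linarith)
    linarith

/-- the claim -/
def H (m : ℕ) : Prop := ∀ α u : ℝ, (Z m α u).encard ≤
  (if u ≤ 0 then 4 else 0) + (if u ≤ K m * (2^m - α) then 4 else 0)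

lemma H_zero : H 0 := by
  intro α u
  have hq : (Z 0 α u).encard ≤ 2 := by
    apply quad_encard α u
    rintro x ⟨h0, h1, h2⟩
    simpa [U] using h2
  by_cases h1 : u ≤ 0
  · rw [if_pos h1]
    refine hq.trans ?_
    refine le_trans ?_ (le_self_add)
    norm_num
  · rw [if_neg h1, zero_add]
    by_cases h2 : u ≤ K 0 * (2^0 - α)
    · rw [if_pos h2]
      refine hq.trans ?_
      norm_num
    · rw [if_neg h2]
      push Not at h1 h2
      have : Z 0 α u = ∅ := by
        rw [eq_empty_iff_forall_notMem]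
        rintro x ⟨a0, a1, a2⟩
        simp only [U, K] at a1 a2 h2
        push_cast at a1 h2
        have : x * (x - α) ≤ max 0 (1 - α) := by
          rcases le_or_gt α 1 with h | h
          · rw [max_eq_right (by linarith)]
            rcases le_or_gt α x with h' | h'
            · have : x * (x - α) ≤ 1 * (1 - α) := by
                apply mul_le_mul a1 (by linarith) (by linarith) (by norm_num)
              linarith
            · have : x * (x - α) ≤ 0 := mul_nonpos_of_nonneg_of_nonpos a0 (by linarith)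
              linarith
          · rw [max_eq_left (by linarith)]
            exact mul_nonpos_of_nonneg_of_nonpos a0 (by linarith)
        have h3 : x * (x - α) = u := by rw [← a2]; ring
        rcases max_cases 0 (1 - α) with ⟨e, _⟩ | ⟨e, _⟩
        · rw [e] at this; linarith
        · rw [e] at this
          simp only [pow_zero] at h2
          linarith
      rw [this]; simp

lemma H_step_le (m : ℕ) (hm : H m) (α u : ℝ) (hα : α < 2 * 2^m) : (Z (m+1) α u).encard ≤
    (if u ≤ 0 then 4 else 0) + (if u ≤ (K (m+1) : ℕ) * (2^(m+1) - α) then 4 else 0) := by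
  have hv : (0:ℝ) < 2^m := by positivity
  have hKp : (0:ℝ) < K m := by exact_mod_cast K_pos m
  have hEE : K m * (2^m - α) ≤ (K (m+1) : ℕ) * (2^(m+1) - α) := by
    rw [E_sub]
    have : 0 ≤ K m * (3 * 2^m - α) := by apply mul_nonneg hKp.le; linarith
    have : 0 ≤ 2 * 2^m * (2 * 2^m - α) := by apply mul_nonneg (by positivity); linarith
    linarith
  have h0 : (Z (m+1) α u).encard ≤ (Z m α u).encard + (R m α u).encard :=
    (encard_le_encard (Z_succ_subset m α u)).trans (encard_union_le _ _)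
  by_cases hu : u ≤ K m * (2^m - α)
  · have hR : R m α u = ∅ := by
      rw [eq_empty_iff_forall_notMem]
      intro x hx
      have := R_lower m hα hx
      linarith
    rw [hR, encard_empty, add_zero] at h0
    refine h0.trans ((hm α u).trans ?_)
    rw [if_pos hu, if_pos (hu.trans hEE)]
  · have h1 := hm α u
    rw [if_neg hu, add_zero] at h1
    have h2 : (R m α u).encard ≤ (if u ≤ (K (m+1) : ℕ) * (2^(m+1) - α) then 4 else 0) := by
      split_ifs with h
      · exact R_encard m u hα.le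
      · have hR : R m α u = ∅ := by
          rw [eq_empty_iff_forall_notMem]
          intro x hx
          exact h (R_upper m hα.le hx)
        rw [hR]; simp
    exact h0.trans (add_le_add h1 h2)

theorem H_all (m : ℕ) : H m := by
  induction m with
  | zero => exact H_zero
  | succ m hm =>
    intro α u
    have hv : (0:ℝ) < 2^m := by positivity
    have hKp : (0:ℝ) < (K (m+1) : ℕ) := by exact_mod_cast K_pos (m+1)
    rcases lt_trichotomy α (2 * 2^m) with h | h | h
    · exact H_step_le m hm α u h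
    · subst h
      have hE : ((K (m+1) : ℕ) : ℝ) * (2^(m+1) - 2 * 2^m) = 0 := by ring
      rw [hE]
      have h0 : (Z (m+1) (2 * 2^m) u).encard ≤ (Z m (2 * 2^m) u).encard + (R m (2 * 2^m) u).encard :=
        (encard_le_encard (Z_succ_subset m _ u)).trans (encard_union_le _ _)
      by_cases hu : u ≤ 0
      · rw [if_pos hu]
        refine h0.trans ((add_le_add (Z_top m u).1 (R_encard m u le_rfl)).trans ?_)
        norm_num
      · rw [if_neg hu]
        have hR : R m (2 * 2^m) u = ∅ := by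
          rw [eq_empty_iff_forall_notMem]
          intro x hx
          have := R_upper m le_rfl hx
          rw [hE] at this
          exact hu this
        have hZ : Z m (2 * 2^m) u = ∅ := by
          by_contra hne
          exact hu ((Z_top m u).2 (nonempty_iff_ne_empty.2 hne))
        rw [hR, hZ] at h0
        simpa using h0
    · set E : ℝ := (K (m+1) : ℕ) * (2^(m+1) - α) with hE
      have h1 := H_step_le m hm (4 * 2^m - α) (u - E) (by linarith)
      have e1 : ((K (m+1) : ℕ) : ℝ) * (2^(m+1) - (4 * 2^m - α)) = - E := by rw [hE]; ring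
      rw [e1] at h1
      have e2 : (u - E ≤ 0) ↔ (u ≤ E) := by constructor <;> intro h <;> linarith
      have e3 : (u - E ≤ -E) ↔ (u ≤ 0) := by constructor <;> intro h <;> linarith
      simp only [e2, e3] at h1
      have hsub : Z (m+1) α u ⊆ (fun x => ((K (m+1) : ℕ) : ℝ) - x) '' Z (m+1) (4 * 2^m - α) (u - E) := by
        rintro x ⟨h0, h1', h2⟩
        refine ⟨(K (m+1) : ℕ) - x, ⟨by linarith, by linarith, ?_⟩, by ring⟩
        rw [U_symm (m+1) x h0 h1', hE, ← h2]; ring
      calc (Z (m+1) α u).encard ≤ ((fun x => ((K (m+1) : ℕ) : ℝ) - x) '' Z (m+1) (4 * 2^m - α) (u - E)).encard :=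
            encard_le_encard hsub
        _ ≤ (Z (m+1) (4 * 2^m - α) (u - E)).encard := encard_image_le _ _
        _ ≤ _ := h1
        _ = _ := add_comm _ _

/-- every line meets the graph in at most 8 points -/
theorem Z_encard_le (m : ℕ) (α u : ℝ) : (Z m α u).encard ≤ 8 := by
  refine (H_all m α u).trans ?_
  split_ifs <;> norm_num

end Pool.Agent.IncLog
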