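import Pool.Agent.IncLog.Claim

set_option autoImplicit false

namespace Pool.Agent.IncLog

open Set

/-- the function whose graph over `[0, K m]` is the curve with parameters `t s r` -/
noncomputable def F (m t s r : ℕ) (x : ℝ) : ℝ := t + s * x + r * U m x

/-- the curve with parameters `t s r`, shifted horizontally by `X` -/
def curve (X : ℝ) (m t s r : ℕ) : Set (ℝ × ℝ) :=
  {p | X ≤ p.1 ∧ p.1 ≤ X + K m ∧ p.2 = F m t s r (p.1 - X)}

lemma F_continuous (m t s r : ℕ) : Continuous (F m t s r) := by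
  have := U_continuous m
  unfold F
  fun_prop

lemma curve_arc (X : ℝ) (m t s r : ℕ) :
    ∃ f : unitInterval → ℝ × ℝ, Continuous f ∧ Function.Injective f ∧ Set.range f = curve X m t s r := by
  have hK : (0:ℝ) < K m := by exact_mod_cast K_pos m
  have hF := F_continuous m t s r
  refine ⟨fun θ => (X + K m * (θ : ℝ), F m t s r (K m * (θ : ℝ))), ?_, ?_, ?_⟩
  · fun_prop
  · intro a b hab
    simp only [Prod.mk.injEq] at hab
    have h := hab.1
    have : (a : ℝ) = b := by
      have : (K m : ℝ) * a = K m * b := by linarith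
      exact mul_left_cancel₀ hK.ne' this
    exact Subtype.ext this
  · ext ⟨p, q⟩
    simp only [Set.mem_range, Prod.mk.injEq, curve, Set.mem_ofPred_eq]
    constructor
    · rintro ⟨θ, rfl, rfl⟩
      refine ⟨?_, ?_, by congr 1; ring⟩
      · have := mul_nonneg hK.le θ.2.1; linarith
      · have := mul_le_mul_of_nonneg_left θ.2.2 hK.le; linarith
    · rintro ⟨h0, h1, rfl⟩
      refine ⟨⟨(p - X) / K m, ?_, ?_⟩, ?_, ?_⟩
      · apply div_nonneg (by linarith) hK.le
      · rw [div_le_one hK]; linarith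
      · have : (K m : ℝ) * ((p - X) / K m) = p - X := by field_simp
        simp only [this]; ring
      · have : (K m : ℝ) * ((p - X) / K m) = p - X := by field_simp
        simp only [this]

lemma agree_encard (m t s r t' s' r' : ℕ) (h : (t, s, r) ≠ (t', s', r')) :
    {x : ℝ | 0 ≤ x ∧ x ≤ K m ∧ F m t s r x = F m t' s' r' x}.encard ≤ 8 := by
  by_cases hr : r = r'
  · subst hr
    have : {x : ℝ | 0 ≤ x ∧ x ≤ K m ∧ F m t s r x = F m t' s' r x}.encard ≤ 1 := by
      rw [encard_le_one_iff]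
      rintro a b ⟨-, -, ha⟩ ⟨-, -, hb⟩
      simp only [F] at ha hb
      by_cases hs : s = s'
      · subst hs
        exfalso
        have : (t : ℝ) = t' := by linarith
        have : t = t' := by exact_mod_cast this
        exact h (by rw [this])
      · have h1 : ((s : ℝ) - s') * (a - b) = 0 := by linear_combination ha - hb
        rcases mul_eq_zero.1 h1 with h2 | h2
        · exfalso
          have : (s : ℝ) = s' := by linarith
          exact hs (by exact_mod_cast this)
        · linarith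
    exact this.trans (by norm_num)
  · have hr' : (r : ℝ) - r' ≠ 0 := by
      intro h0
      have : (r : ℝ) = r' := by linarith
      exact hr (by exact_mod_cast this)
    refine (encard_le_encard ?_).trans (Z_encard_le m (-((s : ℝ) - s') / (r - r')) (-((t : ℝ) - t') / (r - r')))
    rintro x ⟨h0, h1, h2⟩
    refine ⟨h0, h1, ?_⟩
    simp only [F] at h2
    field_simp
    linear_combination h2

lemma curve_inter (X : ℝ) (m t s r t' s' r' : ℕ) (h : (t, s, r) ≠ (t', s', r')) :
    (curve X m t s r ∩ curve X m t' s' r').encard ≤ 8 := by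
  refine le_trans ?_ (agree_encard m t s r t' s' r' h)
  have hinj : InjOn (fun p : ℝ × ℝ => p.1 - X) (curve X m t s r ∩ curve X m t' s' r') := by
    rintro ⟨a, b⟩ ⟨⟨_, _, h3⟩, _⟩ ⟨a', b'⟩ ⟨⟨_, _, h6⟩, _⟩ hab
    simp only at hab h3 h6
    have : a = a' := by linarith
    subst this
    rw [h3, h6]
  rw [← hinj.encard_image]
  apply encard_le_encard
  rintro _ ⟨⟨a, b⟩, ⟨⟨h1, h2, h3⟩, ⟨_, _, h6⟩⟩, rfl⟩
  simp only at h1 h2 h3 h6 ⊢
  refine ⟨by linarith, by linarith, ?_⟩
  rw [← h3, ← h6]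

lemma curve_infinite (X : ℝ) (m t s r : ℕ) : (curve X m t s r).Infinite := by
  obtain ⟨f, -, hf, hr⟩ := curve_arc X m t s r
  rw [← hr]
  haveI : Infinite unitInterval := (Set.Icc_infinite (zero_lt_one : (0:ℝ) < 1)).to_subtype
  exact Set.infinite_range_of_injective hf

lemma curve_inj (X : ℝ) (m t s r t' s' r' : ℕ) (h : curve X m t s r = curve X m t' s' r') :
    (t, s, r) = (t', s', r') := by
  by_contra hne
  have h1 := curve_inter X m t s r t' s' r' hne
  rw [← h, inter_self] at h1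
  have h2 := (curve_infinite X m t s r).encard_eq
  rw [h2] at h1
  exact absurd h1 (by simp)

lemma mem_curve (X : ℝ) (m t s r i : ℕ) (hi : i ≤ K m) : ((X + i, F m t s r i) : ℝ × ℝ) ∈ curve X m t s r := by
  refine ⟨?_, ?_, ?_⟩
  · simp
  · have : (i : ℝ) ≤ K m := by exact_mod_cast hi
    simpa using this
  · simp

lemma F_int (m t s r i : ℕ) (hi : i ≤ K m) (T S M : ℕ) (ht : t < T) (hs : s < S) (hr : r < M)
    (hT : T = S * K m) (hM : S = M * 2^m) : ∃ z : ℕ, z ≤ 3 * S * K m ∧ F m t s r i = z := by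
  obtain ⟨z, hz⟩ := U_int m i hi
  refine ⟨t + s * i + r * z, ?_, ?_⟩
  · have h1 : (z : ℝ) ≤ 2^m * K m := by
      rw [← hz]; exact U_le_end m i (by positivity) (by exact_mod_cast hi)
    have h2 : z ≤ 2^m * K m := by exact_mod_cast h1
    have h3 : s * i ≤ S * K m := Nat.mul_le_mul hs.le hi
    have h4 : r * z ≤ M * (2^m * K m) := Nat.mul_le_mul hr.le h2
    have h5 : M * (2^m * K m) = S * K m := by rw [hM]; ring
    have : 3 * S * K m = S * K m + S * K m + S * K m := by ring
    omega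
  · simp only [F, hz]; push_cast; ring

open Classical in
/-- a configuration with many incidences -/
lemma config (X : ℝ) (m M S T : ℕ) (hT : T = S * K m) (hM : S = M * 2^m) (hMpos : 0 < M)
    (hM2 : 8 * (m+1) ≤ M^2) :
    ∃ (P : Finset (ℝ × ℝ)) (Γ : Finset (Set (ℝ × ℝ))),
      (∀ γ ∈ Γ, ∃ t s r : ℕ, γ = curve X m t s r) ∧ P.card = T * S * M ∧ Γ.card = T * S * M ∧
      T * S * M * K m ≤ {x : (ℝ × ℝ) × Set (ℝ × ℝ) | x.1 ∈ P ∧ x.2 ∈ Γ ∧ x.1 ∈ x.2}.ncard := by
  set I : Finset (ℕ × ℕ × ℕ) := Finset.range T ×ˢ Finset.range S ×ˢ Finset.range M with hI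
  have hIcard : I.card = T * S * M := by
    rw [hI, Finset.card_product, Finset.card_product]; simp; ring
  set G : Finset (ℝ × ℝ) := (Finset.range (K m + 1) ×ˢ Finset.range (3 * S * K m + 1)).image
    (fun p : ℕ × ℕ => ((X + p.1, (p.2 : ℝ)) : ℝ × ℝ)) with hG
  have hKp := K_pos m
  have hGcard : G.card ≤ T * S * M := by
    refine Finset.card_image_le.trans ?_
    rw [Finset.card_product, Finset.card_range, Finset.card_range, hT]
    have hS : 0 < S := by rw [hM]; positivity
    have h1 : K m + 1 ≤ 2 * K m := by omega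
    have h2 : 3 * S * K m + 1 ≤ 4 * (S * K m) := by
      have : 0 < S * K m := by positivity
      have e : 3 * S * K m = 3 * (S * K m) := by ring
      omega
    have h3 : 8 * K m ≤ S * M := by
      rw [hM, K_eq]
      calc 8 * ((m+1) * 2^m) = (8 * (m+1)) * 2^m := by ring
        _ ≤ M^2 * 2^m := Nat.mul_le_mul_right _ hM2
        _ = M * 2^m * M := by ring
    calc (K m + 1) * (3 * S * K m + 1) ≤ (2 * K m) * (4 * (S * K m)) := Nat.mul_le_mul h1 h2
      _ = (8 * K m) * (S * K m) := by ring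
      _ ≤ (S * M) * (S * K m) := Nat.mul_le_mul_right _ h3
      _ = S * K m * S * M := by ring
  obtain ⟨P, hGP, hPcard⟩ := Infinite.exists_superset_card_eq G (T * S * M) hGcard
  set cf : ℕ × ℕ × ℕ → Set (ℝ × ℝ) := fun q => curve X m q.1 q.2.1 q.2.2 with hcf
  have hcfinj : Function.Injective cf := by
    rintro ⟨t, s, r⟩ ⟨t', s', r'⟩ h
    exact curve_inj X m t s r t' s' r' h
  refine ⟨P, I.image cf, ?_, hPcard, ?_, ?_⟩
  · intro γ hγ
    rw [Finset.mem_image] at hγ
    obtain ⟨⟨t, s, r⟩, -, rfl⟩ := hγ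
    exact ⟨t, s, r, rfl⟩
  · rw [Finset.card_image_of_injective _ hcfinj, hIcard]
  · set J : Finset ((ℕ × ℕ × ℕ) × ℕ) := I ×ˢ Finset.range (K m + 1) with hJ
    set g : (ℕ × ℕ × ℕ) × ℕ → (ℝ × ℝ) × Set (ℝ × ℝ) :=
      fun q => ((X + q.2, F m q.1.1 q.1.2.1 q.1.2.2 q.2), cf q.1) with hg
    have hginj : Function.Injective g := by
      rintro ⟨q, i⟩ ⟨q', i'⟩ h
      simp only [hg, Prod.mk.injEq] at h
      have h1 := hcfinj h.2
      have h2 : (i : ℝ) = i' := by linarith [h.1.1]
      have h3 : i = i' := by exact_mod_cast h2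
      rw [h1, h3]
    have hfin : {x : (ℝ × ℝ) × Set (ℝ × ℝ) | x.1 ∈ P ∧ x.2 ∈ I.image cf ∧ x.1 ∈ x.2}.Finite := by
      apply Set.Finite.subset (P ×ˢ (I.image cf)).finite_toSet
      rintro ⟨a, b⟩ ⟨h1, h2, -⟩
      simp only [Finset.coe_product, mem_prod, Finset.mem_coe]
      exact ⟨h1, h2⟩
    have hsub : (↑(J.image g) : Set ((ℝ × ℝ) × Set (ℝ × ℝ))) ⊆
        {x : (ℝ × ℝ) × Set (ℝ × ℝ) | x.1 ∈ P ∧ x.2 ∈ I.image cf ∧ x.1 ∈ x.2} := by
      intro x hx
      rw [Finset.mem_coe, Finset.mem_image] at hx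
      obtain ⟨⟨⟨t, s, r⟩, i⟩, hq, rfl⟩ := hx
      simp only [hJ, hI, Finset.mem_product, Finset.mem_range] at hq
      obtain ⟨⟨ht, hs, hr⟩, hi⟩ := hq
      have hi' : i ≤ K m := by omega
      refine ⟨?_, ?_, mem_curve X m t s r i hi'⟩
      · apply hGP
        obtain ⟨z, hz1, hz2⟩ := F_int m t s r i hi' T S M ht hs hr hT hM
        rw [hG, Finset.mem_image]
        refine ⟨(i, z), ?_, ?_⟩
        · simp only [Finset.mem_product, Finset.mem_range]; omega
        · simp only [hg, hz2]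
      · simp only [hg]
        apply Finset.mem_image_of_mem
        simp only [hI, Finset.mem_product, Finset.mem_range]
        exact ⟨ht, hs, hr⟩
    have hcard : (J.image g).card = T * S * M * (K m + 1) := by
      rw [Finset.card_image_of_injective _ hginj, hJ, Finset.card_product, hIcard, Finset.card_range]
    calc T * S * M * K m ≤ T * S * M * (K m + 1) := Nat.mul_le_mul_left _ (Nat.le_succ _)
      _ = (J.image g).card := hcard.symm
      _ = (↑(J.image g) : Set ((ℝ × ℝ) × Set (ℝ × ℝ))).ncard := (Set.ncard_coe_finset _).symm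
      _ ≤ _ := Set.ncard_le_ncard hsub hfin

end Pool.Agent.IncLog
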