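import Mathlib

set_option autoImplicit false

namespace Pool.Agent.IncLog

open Set

/-- length of block `m` -/
def K : ℕ → ℕ
  | 0 => 1
  | (m+1) => 2 * K m + 2^(m+1)

lemma K_eq (m : ℕ) : K m = (m+1) * 2^m := by
  induction m with
  | zero => simp [K]
  | succ m ih => simp only [K, ih]; ring

lemma K_ge (m : ℕ) : 2^m ≤ K m := by
  rw [K_eq]; nlinarith [Nat.pos_of_ne_zero (pow_ne_zero m (two_ne_zero : (2:ℕ) ≠ 0))]

lemma K_pos (m : ℕ) : 0 < K m := lt_of_lt_of_le (by positivity) (K_ge m)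

/-- the path function -/
noncomputable def U : ℕ → ℝ → ℝ
  | 0, x => x^2
  | (m+1), x =>
    if x ≤ K m then U m x
    else if x ≤ K m + 2^m then 2^m * K m + 2 * 2^m * (x - K m) + (x - K m)^2
    else if x ≤ K m + 2 * 2^m then 2^m * K m + 3 * (2^m)^2 + (x - K m - 2^m)^2
    else 2^m * K m + 4 * (2^m)^2 + U m (x - K m - 2 * 2^m) + 2 * 2^m * (x - K m - 2 * 2^m)

lemma U_zero (m : ℕ) : U m 0 = 0 := by
  induction m with
  | zero => simp [U]
  | succ m ih => 
    have : (0:ℝ) ≤ K m := by positivity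
    simp [U, this, ih]

lemma U_end (m : ℕ) : U m (K m) = 2^m * K m := by
  induction m with
  | zero => simp [U, K]
  | succ m ih =>
    have hv : (0:ℝ) < 2^m := by positivity
    have hK : (0:ℝ) < K m := by exact_mod_cast K_pos m
    have e : ((K (m+1) : ℕ) : ℝ) = 2 * K m + 2 * 2^m := by
      simp only [K]; push_cast; ring
    have h1 : ¬ ((K (m+1) : ℕ) : ℝ) ≤ K m := by rw [e]; linarith
    have h2 : ¬ ((K (m+1) : ℕ) : ℝ) ≤ K m + 2^m := by rw [e]; linarith
    have h3 : ¬ ((K (m+1) : ℕ) : ℝ) ≤ K m + 2 * 2^m := by rw [e]; linarith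
    have h4 : ((K (m+1) : ℕ) : ℝ) - K m - 2 * 2^m = K m := by rw [e]; ring
    simp only [U, if_neg h1, if_neg h2, if_neg h3, h4, ih]
    rw [e]; ring

lemma K_succ_real (m : ℕ) : ((K (m+1) : ℕ) : ℝ) = 2 * K m + 2 * 2^m := by
  simp only [K]; push_cast; ring

lemma piece1 (m : ℕ) (x : ℝ) (h : x ≤ K m) : U (m+1) x = U m x := by
  simp [U, h]

lemma piece2 (m : ℕ) (y : ℝ) (h0 : 0 ≤ y) (h1 : y ≤ 2^m) :
    U (m+1) (K m + y) = 2^m * K m + 2 * 2^m * y + y^2 := by
  have hv : (0:ℝ) < 2^m := by positivity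
  rcases eq_or_lt_of_le h0 with h | h
  · subst h; simp [U, U_end]
  · have a1 : ¬ ((K m : ℝ) + y ≤ K m) := by linarith
    have a2 : (K m : ℝ) + y ≤ K m + 2^m := by linarith
    simp only [U, if_neg a1, if_pos a2]; ring

lemma piece3 (m : ℕ) (y : ℝ) (h0 : 0 ≤ y) (h1 : y ≤ 2^m) :
    U (m+1) (K m + 2^m + y) = 2^m * K m + 3 * (2^m)^2 + y^2 := by
  have hv : (0:ℝ) < 2^m := by positivity
  rcases eq_or_lt_of_le h0 with h | h
  · subst h
    rw [add_zero, piece2 m (2^m) hv.le le_rfl]; ring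
  · have a1 : ¬ ((K m : ℝ) + 2^m + y ≤ K m) := by linarith
    have a2 : ¬ ((K m : ℝ) + 2^m + y ≤ K m + 2^m) := by linarith
    have a3 : (K m : ℝ) + 2^m + y ≤ K m + 2 * 2^m := by linarith
    simp only [U, if_neg a1, if_neg a2, if_pos a3]; ring

lemma piece4 (m : ℕ) (y : ℝ) (h0 : 0 ≤ y) :
    U (m+1) (K m + 2 * 2^m + y) = 2^m * K m + 4 * (2^m)^2 + U m y + 2 * 2^m * y := by
  have hv : (0:ℝ) < 2^m := by positivity
  rcases eq_or_lt_of_le h0 with h | h
  · subst h
    have : (K m : ℝ) + 2 * 2^m + 0 = K m + 2^m + 2^m := by ring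
    rw [this, piece3 m (2^m) hv.le le_rfl, U_zero]; ring
  · have a1 : ¬ ((K m : ℝ) + 2 * 2^m + y ≤ K m) := by linarith
    have a2 : ¬ ((K m : ℝ) + 2 * 2^m + y ≤ K m + 2^m) := by linarith
    have a3 : ¬ ((K m : ℝ) + 2 * 2^m + y ≤ K m + 2 * 2^m) := by linarith
    have a4 : (K m : ℝ) + 2 * 2^m + y - K m - 2 * 2^m = y := by ring
    simp only [U, if_neg a1, if_neg a2, if_neg a3, a4]

/-- case split of a point of `[0, K (m+1)]` -/
lemma cases_pt (m : ℕ) {x : ℝ} (h0 : 0 ≤ x) (h1 : x ≤ K (m+1)) :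
    x ≤ K m ∨ (∃ y : ℝ, 0 < y ∧ y ≤ 2^m ∧ x = K m + y) ∨
      (∃ y : ℝ, 0 < y ∧ y ≤ 2^m ∧ x = K m + 2^m + y) ∨
      (∃ y : ℝ, 0 < y ∧ y ≤ K m ∧ x = K m + 2 * 2^m + y) := by
  rw [K_succ_real] at h1
  by_cases a : x ≤ K m
  · exact Or.inl a
  · push Not at a
    by_cases b : x ≤ K m + 2^m
    · exact Or.inr (Or.inl ⟨x - K m, by linarith, by linarith, by ring⟩)
    · push Not at b
      by_cases c : x ≤ K m + 2 * 2^m
      · exact Or.inr (Or.inr (Or.inl ⟨x - K m - 2^m, by linarith, by linarith, by ring⟩))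
      · push Not at c
        exact Or.inr (Or.inr (Or.inr ⟨x - K m - 2*2^m, by linarith, by linarith, by ring⟩))

lemma U_continuous (m : ℕ) : Continuous (U m) := by
  induction m with
  | zero => 
    have : U 0 = fun x : ℝ => x^2 := by funext x; simp [U]
    rw [this]; fun_prop
  | succ m ih =>
    have hv : (0:ℝ) < 2^m := by positivity
    have e : U (m+1) = fun x : ℝ => if x ≤ K m then U m x
      else (if x ≤ K m + 2^m then 2^m * K m + 2 * 2^m * (x - K m) + (x - K m)^2
      else (if x ≤ K m + 2 * 2^m then 2^m * K m + 3 * (2^m)^2 + (x - K m - 2^m)^2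
      else 2^m * K m + 4 * (2^m)^2 + U m (x - K m - 2 * 2^m) + 2 * 2^m * (x - K m - 2 * 2^m))) := by
      funext x; simp only [U]
    rw [e]
    refine Continuous.if_le ih ?_ continuous_id continuous_const ?_
    · refine Continuous.if_le (by fun_prop) ?_ continuous_id continuous_const ?_
      · refine Continuous.if_le (by fun_prop) ?_ continuous_id continuous_const ?_
        · have : Continuous fun x : ℝ => U m (x - K m - 2 * 2^m) := ih.comp (by fun_prop)
          fun_prop
        · intro x hx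
          subst hx
          have : (K m : ℝ) + 2 * 2^m - K m - 2 * 2^m = 0 := by ring
          rw [this, U_zero]; ring
      · intro x hx
        subst hx
        rw [if_pos (by linarith)]; ring
    · intro x hx
      subst hx
      rw [if_pos (by linarith), U_end]; ring

lemma U_nonneg (m : ℕ) : ∀ x : ℝ, 0 ≤ x → 0 ≤ U m x := by
  induction m with
  | zero => intro x _; simp only [U]; positivity
  | succ m ih =>
    intro x hx
    have hv : (0:ℝ) < 2^m := by positivity
    simp only [U]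
    split_ifs with h1 h2 h3
    · exact ih x hx
    · push Not at h1
      have : 0 < x - K m := by linarith
      positivity
    · positivity
    · push Not at h3
      have a : 0 < x - K m - 2 * 2^m := by linarith
      have := ih _ a.le
      positivity

lemma U_strictMonoOn (m : ℕ) : StrictMonoOn (U m) (Icc 0 (K m : ℝ)) := by
  induction m with
  | zero =>
    intro a ha b hb hab
    simp only [U]
    have := ha.1
    nlinarith [hb.2]
  | succ m ih =>
    have hv : (0:ℝ) < 2^m := by positivity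
    have hKp : (0:ℝ) < K m := by exact_mod_cast K_pos m
    have hK : (K m : ℝ) ∈ Icc (0:ℝ) (K m) := ⟨hKp.le, le_rfl⟩
    have le_end : ∀ y : ℝ, 0 ≤ y → y ≤ K m → U m y ≤ 2^m * K m := by
      intro y h0 h1
      rw [← U_end]; exact ih.monotoneOn ⟨h0, h1⟩ hK h1
    intro a ha b hb hab
    rcases cases_pt m ha.1 ha.2 with h1 | ⟨y, hy0, hy1, rfl⟩ | ⟨y, hy0, hy1, rfl⟩ | ⟨y, hy0, hy1, rfl⟩ <;>
    rcases cases_pt m hb.1 hb.2 with h2 | ⟨z, hz0, hz1, rfl⟩ | ⟨z, hz0, hz1, rfl⟩ | ⟨z, hz0, hz1, rfl⟩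
    · rw [piece1 m _ h1, piece1 m _ h2]; exact ih ⟨ha.1, h1⟩ ⟨hb.1, h2⟩ hab
    · rw [piece1 m _ h1, piece2 m _ hz0.le hz1]
      have := le_end a ha.1 h1
      have : 0 < z^2 := by positivity
      have : 0 < 2 * 2^m * z := by positivity
      linarith
    · rw [piece1 m _ h1, piece3 m _ hz0.le hz1]
      have := le_end a ha.1 h1
      have : 0 < z^2 := by positivity
      have : 0 < 3 * ((2:ℝ)^m)^2 := by positivity
      linarith
    · rw [piece1 m _ h1, piece4 m _ hz0.le]
      have := le_end a ha.1 h1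
      have := U_nonneg m z hz0.le
      have : 0 < 4 * ((2:ℝ)^m)^2 := by positivity
      have : 0 < 2 * 2^m * z := by positivity
      linarith
    · exfalso; linarith
    · rw [piece2 m _ hy0.le hy1, piece2 m _ hz0.le hz1]
      have : y < z := by linarith
      nlinarith
    · rw [piece2 m _ hy0.le hy1, piece3 m _ hz0.le hz1]
      have : 0 < z^2 := by positivity
      nlinarith
    · rw [piece2 m _ hy0.le hy1, piece4 m _ hz0.le]
      have := U_nonneg m z hz0.le
      have : 0 < 2 * 2^m * z := by positivity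
      nlinarith
    · exfalso; linarith
    · exfalso; linarith
    · rw [piece3 m _ hy0.le hy1, piece3 m _ hz0.le hz1]
      have : y < z := by linarith
      nlinarith
    · rw [piece3 m _ hy0.le hy1, piece4 m _ hz0.le]
      have := U_nonneg m z hz0.le
      have : 0 < 2 * 2^m * z := by positivity
      nlinarith
    · exfalso; linarith
    · exfalso; linarith
    · exfalso; linarith
    · rw [piece4 m _ hy0.le, piece4 m _ hz0.le]
      have h : y < z := by linarith
      have := ih ⟨hy0.le, hy1⟩ ⟨hz0.le, hz1⟩ h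
      have : 2 * 2^m * y < 2 * 2^m * z := by
        apply mul_lt_mul_of_pos_left h; positivity
      linarith

lemma U_le_end (m : ℕ) (y : ℝ) (h0 : 0 ≤ y) (h1 : y ≤ K m) : U m y ≤ 2^m * K m := by
  rw [← U_end]
  exact (U_strictMonoOn m).monotoneOn ⟨h0, h1⟩ ⟨h0.trans h1, le_rfl⟩ h1

/-- the symmetry of the path -/
lemma U_symm (m : ℕ) : ∀ x : ℝ, 0 ≤ x → x ≤ K m →
    U m (K m - x) = 2^m * K m - 2 * 2^m * x + U m x := by
  induction m with
  | zero => intro x _ _; simp only [U, K]; push_cast; ring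
  | succ m ih =>
    intro x hx0 hx1
    have hv : (0:ℝ) < 2^m := by positivity
    have hKp : (0:ℝ) < K m := by exact_mod_cast K_pos m
    rw [pow_succ]
    rcases cases_pt m hx0 hx1 with h1 | ⟨y, hy0, hy1, rfl⟩ | ⟨y, hy0, hy1, rfl⟩ | ⟨y, hy0, hy1, rfl⟩
    · have e : ((K (m+1) : ℕ) : ℝ) - x = K m + 2 * 2^m + (K m - x) := by rw [K_succ_real]; ring
      rw [e, piece4 m _ (by linarith), piece1 m _ h1, ih x hx0 h1, K_succ_real]; ring
    · have e : ((K (m+1) : ℕ) : ℝ) - (K m + y) = K m + 2^m + (2^m - y) := by rw [K_succ_real]; ring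
      rw [e, piece3 m _ (by linarith) (by linarith), piece2 m _ hy0.le hy1, K_succ_real]; ring
    · have e : ((K (m+1) : ℕ) : ℝ) - (K m + 2^m + y) = K m + (2^m - y) := by rw [K_succ_real]; ring
      rw [e, piece2 m _ (by linarith) (by linarith), piece3 m _ hy0.le hy1, K_succ_real]; ring
    · have e : ((K (m+1) : ℕ) : ℝ) - (K m + 2 * 2^m + y) = K m - y := by rw [K_succ_real]; ring
      rw [e, piece1 m _ (by linarith), piece4 m _ hy0.le, ih y hy0.le hy1, K_succ_real]; ring

/-- integrality -/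
lemma U_int (m : ℕ) : ∀ n : ℕ, n ≤ K m → ∃ z : ℕ, U m n = z := by
  induction m with
  | zero => intro n _; exact ⟨n^2, by simp [U]⟩
  | succ m ih =>
    intro n hn
    by_cases h1 : n ≤ K m
    · obtain ⟨z, hz⟩ := ih n h1
      exact ⟨z, by rw [piece1 m _ (by exact_mod_cast h1), hz]⟩
    · push Not at h1
      by_cases h2 : n ≤ K m + 2^m
      · obtain ⟨y, rfl⟩ := Nat.exists_eq_add_of_le h1.le
        have hy : y ≤ 2^m := by omega
        refine ⟨2^m * K m + 2 * 2^m * y + y^2, ?_⟩
        have := piece2 m (y:ℝ) (by positivity) (by exact_mod_cast hy)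
        push_cast at this ⊢
        rw [this]
      · push Not at h2
        by_cases h3 : n ≤ K m + 2^m + 2^m
        · obtain ⟨y, rfl⟩ := Nat.exists_eq_add_of_le h2.le
          have hy : y ≤ 2^m := by omega
          refine ⟨2^m * K m + 3 * (2^m)^2 + y^2, ?_⟩
          have := piece3 m (y:ℝ) (by positivity) (by exact_mod_cast hy)
          push_cast at this ⊢
          rw [this]
        · push Not at h3
          obtain ⟨y, rfl⟩ := Nat.exists_eq_add_of_le h3.le
          have hy : y ≤ K m := by simp only [K, pow_succ] at hn; omega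
          obtain ⟨z, hz⟩ := ih y hy
          refine ⟨2^m * K m + 4 * (2^m)^2 + z + 2 * 2^m * y, ?_⟩
          have := piece4 m (y:ℝ) (by positivity)
          have e : (((K m + 2^m + 2^m + y : ℕ)) : ℝ) = K m + 2 * 2^m + y := by push_cast; ring
          rw [e, this, hz]; push_cast; ring

/-- zeros of `U m x - α x - u` on `[0, K m]` -/
def Z (m : ℕ) (α u : ℝ) : Set ℝ := {x | 0 ≤ x ∧ x ≤ K m ∧ U m x - α * x = u}

lemma quad_encard (a b : ℝ) (S : Set ℝ) (hS : ∀ x ∈ S, x^2 - a * x = b) : S.encard ≤ 2 := by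
  rcases S.eq_empty_or_nonempty with h | ⟨x0, hx0⟩
  · rw [h]; simp
  · have : S ⊆ {x0, a - x0} := by
      intro y hy
      have h1 := hS x0 hx0
      have h2 := hS y hy
      have : (y - x0) * (y - (a - x0)) = 0 := by linear_combination h2 - h1
      rcases mul_eq_zero.1 this with h | h
      · left; linarith
      · right; simp only [mem_singleton_iff]; linarith
    refine (encard_le_encard this).trans ((encard_insert_le _ _).trans ?_)
    rw [encard_singleton]; norm_num

end Pool.Agent.IncLog
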